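import Pool.Agent.TH160.Tow.Cube
import Pool.Agent.H137R5.TowMain
import Pool.Agent.W254.HP.Opt

/-!
# Towers of height three with varying base and varying middle entry
-/

set_option autoImplicit false

namespace Pool.Agent.TH160.Tow

open Finset
open Pool.Agent.H301R2.SSE (Lt)
open Pool.Agent.H301R2.SSE (Lt_log QB mem_QB)
open Pool.Agent.H137R5.Tow (Bad gs trC core lt_of)

theorem prod_cube {r : ℕ} (T : Finset (Fin r)) (x y : Fin r → ℝ) (hy : ∀ i, y i ≠ 0) :
    ∏ i, (if i ∈ T then x i else y i) = (∏ i, y i) * ∏ i ∈ T, (x i / y i) := by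
  have h1 : ∏ i, (if i ∈ T then x i else y i) =
      ∏ i, (y i * (if i ∈ T then x i / y i else 1)) := by
    apply Finset.prod_congr rfl
    intro i _
    split_ifs
    · rw [mul_div_cancel₀ _ (hy i)]
    · rw [mul_one]
  rw [h1, Finset.prod_mul_distrib, Finset.prod_ite_mem, Finset.univ_inter]

theorem sum_cube {r : ℕ} (T : Finset (Fin r)) (x y : Fin r → ℝ) :
    ∑ i, (if i ∈ T then x i else y i) = (∑ i, y i) + ∑ i ∈ T, (x i - y i) := by
  have h1 : ∑ i, (if i ∈ T then x i else y i) =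
      ∑ i, (y i + (if i ∈ T then x i - y i else 0)) := by
    apply Finset.sum_congr rfl
    intro i _
    split_ifs
    · ring
    · rw [add_zero]
  rw [h1, Finset.sum_add_distrib, Finset.sum_ite_mem, Finset.univ_inter]

theorem log_cube {r : ℕ} (T : Finset (Fin r)) (a0 : ℕ) (p q : Fin r → ℕ) (ha0 : (0 : ℝ) < a0)
    (hp : ∀ i, (0 : ℝ) < p i) (hq : ∀ i, (0 : ℝ) < q i) :
    (0 : ℝ) < ((a0 * ∏ i, (if i ∈ T then q i else p i) : ℕ) : ℝ) ∧
    Real.log ((a0 * ∏ i, (if i ∈ T then q i else p i) : ℕ) : ℝ) =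
      Real.log a0 + ((∑ i, Real.log (p i)) + ∑ i ∈ T, (Real.log (q i) - Real.log (p i))) := by
  have hf : ∀ i, (0 : ℝ) < (if i ∈ T then (q i : ℝ) else (p i : ℝ)) := by
    intro i
    split_ifs
    · exact hq i
    · exact hp i
  have hnr : ((a0 * ∏ i, (if i ∈ T then q i else p i) : ℕ) : ℝ) =
      a0 * ∏ i, (if i ∈ T then (q i : ℝ) else (p i : ℝ)) := by
    push_cast
    rfl
  have hprod : (0 : ℝ) < ∏ i, (if i ∈ T then (q i : ℝ) else (p i : ℝ)) :=
    Finset.prod_pos fun i _ => hf i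
  rw [hnr]
  refine ⟨mul_pos ha0 hprod, ?_⟩
  rw [Real.log_mul ha0.ne' hprod.ne', Real.log_prod (fun i _ => (hf i).ne'), ← sum_cube]
  have : ∀ i, Real.log (if i ∈ T then (q i : ℝ) else (p i : ℝ)) =
      if i ∈ T then Real.log (q i) else Real.log (p i) := fun i => by split_ifs <;> rfl
  simp only [this]

theorem pow_cube {r : ℕ} (T : Finset (Fin r)) (a0 : ℕ) (p q : Fin r → ℕ) (c : ℝ)
    (ha0 : (0 : ℝ) < a0) (hp : ∀ i, (0 : ℝ) < p i) (hq : ∀ i, (0 : ℝ) < q i) :
    ((a0 * ∏ i, (if i ∈ T then q i else p i) : ℕ) : ℝ) ^ c =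
      (a0 : ℝ) ^ c * ((∏ i, (p i : ℝ) ^ c) * ∏ i ∈ T, ((q i : ℝ) ^ c / (p i : ℝ) ^ c)) := by
  have hf : ∀ i, (0 : ℝ) < (if i ∈ T then (q i : ℝ) else (p i : ℝ)) := by
    intro i
    split_ifs
    · exact hq i
    · exact hp i
  have hnr : ((a0 * ∏ i, (if i ∈ T then q i else p i) : ℕ) : ℝ) =
      a0 * ∏ i, (if i ∈ T then (q i : ℝ) else (p i : ℝ)) := by
    push_cast
    rfl
  have hprod : (0 : ℝ) < ∏ i, (if i ∈ T then (q i : ℝ) else (p i : ℝ)) :=
    Finset.prod_pos fun i _ => hf i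
  have this : ∀ i, (if i ∈ T then (q i : ℝ) else (p i : ℝ)) ^ c =
      if i ∈ T then (q i : ℝ) ^ c else (p i : ℝ) ^ c := fun i => by split_ifs <;> rfl
  rw [hnr, Real.mul_rpow ha0.le hprod.le, ← Real.finsetProd_rpow _ _ (fun i _ => (hf i).le),
    ← prod_cube T _ _ (fun i => (Real.rpow_pos_of_pos (hp i) c).ne')]
  simp only [this]

theorem tower_cube {r : ℕ} (T : Finset (Fin r)) (a0 : ℕ) (p q : Fin r → ℕ) (b κ s c : ℝ)
    (hb : 0 < b) (ha0 : (0 : ℝ) < a0) (hp : ∀ i, (0 : ℝ) < p i) (hq : ∀ i, (0 : ℝ) < q i)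
    (n : ℕ) (hn : n = a0 * ∏ i, (if i ∈ T then q i else p i)) :
    Real.log ((b * (n : ℝ) ^ s) ^ (κ * (n : ℝ) ^ c)) =
      ((Real.log b + s * (Real.log a0 + ∑ i, Real.log (p i))) +
        ∑ i ∈ T, s * (Real.log (q i) - Real.log (p i))) *
      (κ * ((a0 : ℝ) ^ c * ∏ i, (p i : ℝ) ^ c) * ∏ i ∈ T, ((q i : ℝ) ^ c / (p i : ℝ) ^ c)) := by
  obtain ⟨h1, h2⟩ := log_cube T a0 p q ha0 hp hq
  have h3 := pow_cube T a0 p q c ha0 hp hq
  rw [← hn] at h1 h2 h3
  have hbase : (0 : ℝ) < b * (n : ℝ) ^ s := mul_pos hb (Real.rpow_pos_of_pos h1 s)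
  rw [Real.log_rpow hbase, Real.log_mul hb.ne' (Real.rpow_pos_of_pos h1 s).ne',
    Real.log_rpow h1, h2, h3, ← Finset.mul_sum]
  ring

/-- logarithms of quotients of distinct primes are independent over the algebraic numbers -/
theorem quot_indep (p q : Fin 3 → ℕ) (hp : ∀ i, (p i).Prime) (hq : ∀ i, (q i).Prime)
    (hinj : Function.Injective (Sum.elim p q)) (g : Fin 3 → ℂ) (hg : ∀ i, IsAlgebraic ℚ (g i))
    (h : ∑ i, g i * ((Real.log (q i) - Real.log (p i) : ℝ) : ℂ) = 0) : ∀ i, g i = 0 := by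
  have h1 : LinearIndependent ℚ
      (fun s : Fin 3 ⊕ Fin 3 => ((Real.log ((Sum.elim p q s : ℕ) : ℝ) : ℝ) : ℂ)) :=
    Pool.Agent.H297R2.linearIndependent_log_prime _ (fun s => by
      rcases s with s | s
      · exact hp s
      · exact hq s) hinj
  have h2 := Pool.Agent.W254.HP.opt_indep
    (fun s : Fin 3 ⊕ Fin 3 => ((Real.log ((Sum.elim p q s : ℕ) : ℝ) : ℝ) : ℂ)) (fun s => by
      have hpos : (0 : ℝ) < ((Sum.elim p q s : ℕ) : ℝ) := by
        rcases s with s | s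
        · exact_mod_cast (hp s).pos
        · exact_mod_cast (hq s).pos
      rw [← Complex.ofReal_exp, Real.exp_log hpos, Complex.ofReal_natCast]
      exact isAlgebraic_natCast _) h1
  have h3 := h2.comp some (Option.some_injective _)
  have h4 := Fintype.linearIndependent_iff.mp h3
    (Sum.elim (fun i => -(⟨g i, mem_QB.mpr (hg i)⟩ : QB)) (fun i => (⟨g i, mem_QB.mpr (hg i)⟩ : QB)))
    (by
      rw [Fintype.sum_sum_type, ← Finset.sum_add_distrib, ← h]
      apply Finset.sum_congr rfl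
      intro i _
      simp only [Function.comp_apply, Option.elim_some, Sum.elim_inl, Sum.elim_inr,
        Algebra.smul_def]
      change (-(g i)) * ((Real.log (p i) : ℝ) : ℂ) + g i * ((Real.log (q i) : ℝ) : ℂ) = _
      push_cast
      ring)
  intro i
  have h5 := h4 (Sum.inr i)
  exact congrArg (fun z : QB => (z : ℂ)) h5

open Classical in
/-- six exponentials: at most two of the quotients are algebraic -/
theorem few_alg {r : ℕ} (c : ℝ) (hci : Irrational c) (p q : Fin r → ℕ) (hp : ∀ i, (p i).Prime)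
    (hq : ∀ i, (q i).Prime) (hinj : Function.Injective (Sum.elim p q)) :
    (Finset.univ.filter fun i => IsAlgebraic ℚ ((q i : ℝ) ^ c / (p i : ℝ) ^ c)).card ≤ 2 := by
  by_contra hcon
  rw [not_le, Finset.two_lt_card] at hcon
  obtain ⟨i, hi, j, hj, k, hk, hij, hik, hjk⟩ := hcon
  rw [Finset.mem_filter] at hi hj hk
  have hpp : ∀ i, (0 : ℝ) < p i := fun i => by exact_mod_cast (hp i).pos
  have hqp : ∀ i, (0 : ℝ) < q i := fun i => by exact_mod_cast (hq i).pos
  by_cases hca : IsAlgebraic ℚ c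
  · have h1 := hi.2
    rw [← Real.div_rpow (hqp i).le (hpp i).le] at h1
    refine gs (div_pos (hqp i) (hpp i)) ?_ ?_ hca hci h1
    · intro h
      rw [div_eq_one_iff_eq (hpp i).ne'] at h
      have h4 : q i = p i := by exact_mod_cast h
      have h5 := hinj (a₁ := Sum.inl i) (a₂ := Sum.inr i) (by simp [h4])
      exact absurd h5 (by simp)
    · have : (q i : ℝ) / (p i : ℝ) = algebraMap ℚ ℝ ((q i : ℚ) / (p i : ℚ)) := by simp
      rw [this]
      exact isAlgebraic_algebraMap _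
  · have mem1 : ∀ i, ((Real.log (q i) - Real.log (p i) : ℝ) : ℂ) ∈ Lt := by
      intro i
      apply lt_of
      rw [← Real.log_div (hqp i).ne' (hpp i).ne', Real.exp_log (div_pos (hqp i) (hpp i))]
      have : (q i : ℝ) / (p i : ℝ) = algebraMap ℚ ℝ ((q i : ℚ) / (p i : ℚ)) := by simp
      rw [this]
      exact isAlgebraic_algebraMap _
    have mem2 : ∀ i, IsAlgebraic ℚ ((q i : ℝ) ^ c / (p i : ℝ) ^ c) →
        (c : ℂ) * ((Real.log (q i) - Real.log (p i) : ℝ) : ℂ) ∈ Lt := by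
      intro i hi
      rw [← Complex.ofReal_mul]
      apply lt_of
      rw [mul_sub, Real.exp_sub, mul_comm c, mul_comm c, ← Real.rpow_def_of_pos (hqp i),
        ← Real.rpow_def_of_pos (hpp i)]
      exact hi
    refine core c hca _ _ _ ?_ (mem1 i) (mem1 j) (mem1 k) (mem2 i hi.2) (mem2 j hj.2)
      (mem2 k hk.2)
    intro a b d ha hb hd hs
    have he : Function.Injective (![i, j, k] : Fin 3 → Fin r) := by
      intro u v huv
      fin_cases u <;> fin_cases v <;> simp_all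
    have hinj' : Function.Injective (Sum.elim (p ∘ ![i, j, k]) (q ∘ ![i, j, k])) := by
      have h1 : Sum.elim (p ∘ ![i, j, k]) (q ∘ ![i, j, k]) =
          Sum.elim p q ∘ Sum.map ![i, j, k] ![i, j, k] := by
        funext s
        rcases s with s | s <;> rfl
      rw [h1]
      exact hinj.comp (Sum.map_injective.mpr ⟨he, he⟩)
    have h2 := quot_indep (p ∘ ![i, j, k]) (q ∘ ![i, j, k]) (fun s => hp _) (fun s => hq _) hinj'
      ![a, b, d] (by
        intro s
        fin_cases s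
        · exact ha
        · exact hb
        · exact hd) (by
        rw [Fin.sum_univ_three]
        simp only [Function.comp_apply, Matrix.cons_val_zero, Matrix.cons_val_one,
          Matrix.cons_val]
        exact hs)
    exact ⟨h2 0, h2 1, h2 2⟩

open Classical in
/-- varying base and middle entry; the bound is uniform in all parameters -/
theorem selfCount (ε : ℝ) (hε : 0 < ε) : ∃ N0 : ℕ, ∀ N ≥ N0, ∀ b κ s c : ℝ, 0 < b → κ ≠ 0 →
    s ≠ 0 → Irrational c →
      (((Finset.Icc 1 N).filter (fun n : ℕ =>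
        Bad ((b * (n : ℝ) ^ s) ^ (κ * (n : ℝ) ^ c)))).card : ℝ) ≤ ε * N := by
  obtain ⟨x0, hx0⟩ := Pool.Agent.H297R2.dense_cube 41 ε hε 1
  refine ⟨x0, fun N hN b κ s c hb hκ hs hci => ?_⟩
  by_contra hcon
  push Not at hcon
  obtain ⟨a0, p, q, ha0, hp, hq, hinj, hcube⟩ := hx0 N hN
    ((Finset.Icc 1 N).filter (fun n : ℕ => Bad ((b * (n : ℝ) ^ s) ^ (κ * (n : ℝ) ^ c)))) (by
      intro n hn
      rw [Finset.mem_filter, Finset.mem_Icc] at hn
      rw [Finset.mem_Ioc]
      omega) hcon.le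
  have hpp : ∀ i, (0 : ℝ) < p i := fun i => by exact_mod_cast (hp i).1.pos
  have hqp : ∀ i, (0 : ℝ) < q i := fun i => by exact_mod_cast (hq i).1.pos
  have ha0' : (0 : ℝ) < a0 := by exact_mod_cast ha0
  have hne : ∀ i, (q i : ℝ) ≠ p i := by
    intro i h
    have h4 : q i = p i := by exact_mod_cast h
    have h5 := hinj (a₁ := Sum.inl i) (a₂ := Sum.inr i) (by simp [h4])
    exact absurd h5 (by simp)
  -- the good directions
  set G : Finset (Fin 41) :=
    Finset.univ.filter fun i => ¬ IsAlgebraic ℚ ((q i : ℝ) ^ c / (p i : ℝ) ^ c) with hG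
  have hGc : 39 ≤ G.card := by
    have h1 := few_alg c hci p q (fun i => (hp i).1) (fun i => (hq i).1) hinj
    have h2 := Finset.card_filter_add_card_filter_not (s := (Finset.univ : Finset (Fin 41)))
      (fun i => IsAlgebraic ℚ ((q i : ℝ) ^ c / (p i : ℝ) ^ c))
    rw [Finset.card_univ, Fintype.card_fin] at h2
    rw [hG]
    omega
  set e : Fin 39 ↪o Fin 41 := G.orderEmbOfCardLe hGc with he
  have ratio : ∀ i : Fin 39, Transcendental ℚ ((q (e i) : ℝ) ^ c / (p (e i) : ℝ) ^ c) := by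
    intro i
    have h0 : ∀ j ∈ G, Transcendental ℚ ((q j : ℝ) ^ c / (p j : ℝ) ^ c) := by
      intro j hj
      rw [hG] at hj
      exact (Finset.mem_filter.mp hj).2
    exact h0 (e i) (Finset.orderEmbOfCardLe_mem G hGc i)
  refine cube_false ((Real.log b + s * (Real.log a0 + ∑ i, Real.log (p i)) : ℝ) : ℂ)
    ((κ * ((a0 : ℝ) ^ c * ∏ i, (p i : ℝ) ^ c) : ℝ) : ℂ) ?_
    (fun i => ((s * (Real.log (q (e i)) - Real.log (p (e i))) : ℝ) : ℂ))
    (fun i => (((q (e i) : ℝ) ^ c / (p (e i) : ℝ) ^ c : ℝ) : ℂ)) ?_ ?_ ?_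
  · rw [Complex.ofReal_ne_zero]
    refine mul_ne_zero hκ (mul_ne_zero (Real.rpow_pos_of_pos ha0' c).ne' ?_)
    exact Finset.prod_ne_zero_iff.mpr fun i _ => (Real.rpow_pos_of_pos (hpp i) c).ne'
  · intro i
    exact trC (ratio i)
  · intro i
    rw [Complex.ofReal_ne_zero]
    refine mul_ne_zero hs (sub_ne_zero.mpr ?_)
    intro h
    exact hne (e i) (Real.log_injOn_pos (Set.mem_Ioi.mpr (hqp _)) (Set.mem_Ioi.mpr (hpp _)) h)
  · intro T
    have h1 := (Finset.mem_filter.mp (hcube (T.map e.toEmbedding))).2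
    have h2 := tower_cube (T.map e.toEmbedding) a0 p q b κ s c hb ha0' hpp hqp _ rfl
    rw [Finset.sum_map, Finset.prod_map] at h2
    unfold Bad at h1
    rw [h2] at h1
    rw [← Complex.ofReal_sum, ← Complex.ofReal_prod, ← Complex.ofReal_add, ← Complex.ofReal_mul,
      ← Complex.ofReal_mul]
    exact h1

end Pool.Agent.TH160.Tow
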