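import Pool.Agent.W254.HP.Rel
import Pool.Agent.H137R5.TowFam

/-!
# Kernels of relations with coefficients `1, P, Q, P Q`

Tools for products of an additive and a multiplicative function on cubes: growth of the rank of the
monomials in transcendental numbers, and the hyperplane case of the linear subgroup theorem
(`Pool.Agent.W254.HP.hyperplane'`) for coefficient vectors of rank at least three.
-/

set_option autoImplicit false

namespace Pool.Agent.TH160.Tow

open Module Finset
open Pool.Agent.H301R2.SSE (QB mem_QB Lt Lt_mul Lt_alg Lt_log)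
open Pool.Agent.W254.HP (hyperplane')

/-- a transcendental number does not stabilise a nonzero finite dimensional space -/
theorem not_stable {t : ℂ} (ht : Transcendental ℚ t) (V : Submodule QB ℂ) (hV : V ≠ ⊥)
    [FiniteDimensional QB V] : ∃ v ∈ V, t * v ∉ V := by
  by_contra h
  push Not at h
  have h1 : IsIntegral QB t :=
    isIntegral_of_smul_mem_submodule V hV (Module.Finite.iff_fg.mp inferInstance) t
      (fun n hn => by simpa using h n hn)
  haveI : Algebra.IsAlgebraic ℚ QB := algebraicClosure.isAlgebraic ℚ ℂ
  exact ht (h1.isAlgebraic.restrictScalars ℚ)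

theorem exists_indep {ι : Type*} [DecidableEq ι] (t : ι → ℂ) (ht : ∀ i, Transcendental ℚ (t i))
    (J : Finset ι) : ∃ S : Finset (Finset ι), (∀ s ∈ S, s ⊆ J) ∧ S.card = J.card + 1 ∧
      LinearIndepOn QB (fun s : Finset ι => ∏ i ∈ s, t i) (S : Set (Finset ι)) := by
  classical
  induction J using Finset.induction_on with
  | empty =>
    refine ⟨{∅}, by simp, by simp, ?_⟩
    rw [Finset.coe_singleton]
    rw [linearIndepOn_singleton_iff]
    simp
  | insert j J hj ih =>
    obtain ⟨S, hS, hc, hli⟩ := ih
    set V : Submodule QB ℂ :=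
      Submodule.span QB ((fun s : Finset ι => ∏ i ∈ s, t i) '' (S : Set (Finset ι))) with hVdef
    haveI : FiniteDimensional QB V :=
      FiniteDimensional.span_of_finite QB ((S.finite_toSet).image _)
    have hV : V ≠ ⊥ := by
      intro h0
      have hne : S.Nonempty := by
        rw [← Finset.card_pos, hc]; omega
      obtain ⟨s, hs⟩ := hne
      have h1 : (∏ i ∈ s, t i) ∈ V := Submodule.subset_span ⟨s, hs, rfl⟩
      rw [h0, Submodule.mem_bot, Finset.prod_eq_zero_iff] at h1
      obtain ⟨i, -, hi⟩ := h1
      exact ht i (by rw [hi]; exact isAlgebraic_zero)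
    obtain ⟨v, hv, hv'⟩ := not_stable (ht j) V hV
    have hex : ∃ s ∈ S, t j * ∏ i ∈ s, t i ∉ V := by
      by_contra hcon
      push Not at hcon
      apply hv'
      refine Submodule.span_induction (p := fun v _ => t j * v ∈ V) ?_ ?_ ?_ ?_ hv
      · rintro _ ⟨s, hs, rfl⟩
        exact hcon s hs
      · rw [mul_zero]; exact V.zero_mem
      · intro x y _ _ hx hy
        rw [mul_add]; exact V.add_mem hx hy
      · intro a x _ hx
        rw [mul_smul_comm]; exact V.smul_mem a hx
    obtain ⟨s, hs, hsV⟩ := hex
    have hjs : j ∉ s := fun h => hj (hS s hs h)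
    have hnew : insert j s ∉ S := fun h => hj (hS _ h (Finset.mem_insert_self j s))
    refine ⟨insert (insert j s) S, ?_, ?_, ?_⟩
    · intro u hu
      rcases Finset.mem_insert.mp hu with h1 | h1
      · subst h1
        exact Finset.insert_subset_insert j (hS s hs)
      · exact (hS u h1).trans (Finset.subset_insert j J)
    · rw [Finset.card_insert_of_notMem hnew, hc, Finset.card_insert_of_notMem hj]
    · rw [Finset.coe_insert]
      refine hli.insert ?_
      rw [Finset.prod_insert hjs]
      exact hsV

theorem finrank_le {d : ℕ} (x : Fin d → ℂ) (hx : LinearIndependent QB x)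
    (W : Submodule QB (Fin d → ℂ)) [FiniteDimensional QB W]
    (hW : ∀ w ∈ W, (∀ k, w k ∈ Lt) ∧ ∑ k, x k * w k = 0) : finrank QB W ≤ d * (d - 1) := by
  let B := Module.finBasis QB W
  have h := hyperplane' (κ := Fin (finrank QB W)) d x (fun i j => (B j : Fin d → ℂ) i) hx
    (fun i j => (hW _ (B j).2).1 i) (fun j => (hW _ (B j).2).2)
    (B.linearIndependent.map' W.subtype W.ker_subtype)
  simpa using h

theorem ker_ge {d : ℕ} {S : Type*} [Fintype S] (x : Fin d → ℂ) (hx : LinearIndependent QB x)
    (v : S → Fin d → ℂ) (hv : ∀ s k, v s k ∈ Lt) (hxv : ∀ s, ∑ k, x k * v s k = 0) :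
    Fintype.card S ≤ finrank QB (LinearMap.ker (Fintype.linearCombination QB v)) + d * (d - 1) := by
  classical
  have h1 := LinearMap.finrank_range_add_finrank_ker (Fintype.linearCombination QB v)
  rw [Module.finrank_fintype_fun_eq_card] at h1
  have h2 : finrank QB (LinearMap.range (Fintype.linearCombination QB v)) ≤ d * (d - 1) := by
    refine finrank_le x hx _ ?_
    intro w hw
    rw [Fintype.range_linearCombination] at hw
    refine Submodule.span_induction
      (p := fun w _ => (∀ k, w k ∈ Lt) ∧ ∑ k, x k * w k = 0) ?_ ?_ ?_ ?_ hw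
    · rintro _ ⟨s, rfl⟩
      exact ⟨hv s, hxv s⟩
    · refine ⟨fun k => Lt.zero_mem, ?_⟩
      simp
    · rintro a b _ _ ⟨ha, ha'⟩ ⟨hb, hb'⟩
      refine ⟨fun k => Lt.add_mem (ha k) (hb k), ?_⟩
      have : ∑ k, x k * (a + b) k = ∑ k, x k * a k + ∑ k, x k * b k := by
        rw [← Finset.sum_add_distrib]
        exact Finset.sum_congr rfl fun k _ => by rw [Pi.add_apply, mul_add]
      rw [this, ha', hb', add_zero]
    · rintro c a _ ⟨ha, ha'⟩
      refine ⟨fun k => Lt.smul_mem c (ha k), ?_⟩
      have : ∑ k, x k * (c • a) k = c • ∑ k, x k * a k := by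
        rw [Finset.smul_sum]
        exact Finset.sum_congr rfl fun k _ => by rw [Pi.smul_apply, mul_smul_comm]
      rw [this, ha', smul_zero]
  omega

/-- the kernel of a relation whose coefficients have rank at least three among four -/
theorem pair_ker {S : Type*} [Fintype S] (x : Fin 4 → ℂ)
    (h3 : 3 ≤ finrank QB (Submodule.span QB (Set.range x)))
    (v : S → Fin 4 → ℂ) (hv : ∀ s k, v s k ∈ Lt) (hxv : ∀ s, ∑ k, x k * v s k = 0) :
    ∃ (ρ : Fin 4 → ℂ) (K : Submodule QB (S → QB)), (∀ k, IsAlgebraic ℚ (ρ k)) ∧
      Fintype.card S ≤ finrank QB K + 12 ∧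
      ∀ c ∈ K, ∃ φ : ℂ, ∀ k, ∑ s, (c s : ℂ) * v s k = φ * ρ k := by
  classical
  by_cases hx : LinearIndependent QB x
  · refine ⟨fun _ => 0, LinearMap.ker (Fintype.linearCombination QB v), fun _ => isAlgebraic_zero,
      ker_ge x hx v hv hxv, fun c hc => ⟨0, fun k => ?_⟩⟩
    rw [LinearMap.mem_ker, Fintype.linearCombination_apply] at hc
    have h1 := congrFun hc k
    rw [Finset.sum_apply] at h1
    rw [mul_zero]
    rw [Pi.zero_apply] at h1
    rw [← h1]
    apply Finset.sum_congr rfl
    intro s _
    rw [Pi.smul_apply, Algebra.smul_def]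
    rfl
  · rw [Fintype.not_linearIndependent_iff] at hx
    obtain ⟨g, hg, m, hm⟩ := hx
    have hmC : (g m : ℂ) ≠ 0 := by
      intro h; exact hm (Subtype.ext h)
    have hgC : ∑ k, (g k : ℂ) * x k = 0 := by
      rw [← hg]
      exact Finset.sum_congr rfl fun k _ => by rw [Algebra.smul_def]; rfl
    have hgA : ∀ k, IsAlgebraic ℚ (g k : ℂ) := fun k => mem_QB.mp (g k).2
    set x' : Fin 3 → ℂ := fun k => x (m.succAbove k) with hx'
    have hspan : Submodule.span QB (Set.range x) ≤ Submodule.span QB (Set.range x') := by
      rw [Submodule.span_le]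
      rintro _ ⟨k, rfl⟩
      by_cases hk : k = m
      · subst hk
        have e1 : x k = ∑ i : Fin 3, (-(g (k.succAbove i)) / g k) • x' i := by
          rw [Fin.sum_univ_succAbove _ k] at hgC
          have e2 : ∑ i : Fin 3, (-(g (k.succAbove i)) / g k) • x' i =
              -(∑ i : Fin 3, (g (k.succAbove i) : ℂ) * x (k.succAbove i)) / (g k : ℂ) := by
            rw [← Finset.sum_neg_distrib, Finset.sum_div]
            apply Finset.sum_congr rfl
            intro i _
            rw [Algebra.smul_def, hx']
            change ((-(g (k.succAbove i)) / g k : QB) : ℂ) * _ = _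
            push_cast
            ring
          rw [e2, eq_div_iff hmC]
          linear_combination hgC
        rw [e1]
        exact Submodule.sum_mem _ fun i _ =>
          Submodule.smul_mem _ _ (Submodule.subset_span ⟨i, rfl⟩)
      · obtain ⟨i, hi⟩ := Fin.exists_succAbove_eq hk
        rw [← hi]
        exact Submodule.subset_span ⟨i, rfl⟩
    have hx'i : LinearIndependent QB x' := by
      rw [linearIndependent_iff_card_le_finrank_span]
      haveI : FiniteDimensional QB (Submodule.span QB (Set.range x')) :=
        FiniteDimensional.span_of_finite QB (Set.finite_range _)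
      have := Submodule.finrank_mono hspan
      simp only [Fintype.card_fin]
      exact h3.trans this
    set v' : S → Fin 3 → ℂ := fun s k =>
      v s (m.succAbove k) - ((g (m.succAbove k) : ℂ) / (g m : ℂ)) * v s m with hv'
    have hv'L : ∀ s k, v' s k ∈ Lt := fun s k =>
      Lt.sub_mem (hv s _) (Lt_mul ((hgA _).mul (hgA m).inv) (hv s m))
    have hxv' : ∀ s, ∑ k, x' k * v' s k = 0 := by
      intro s
      have e1 := hxv s
      rw [Fin.sum_univ_succAbove _ m] at e1
      rw [Fin.sum_univ_succAbove _ m] at hgC
      have e2 : ∑ k, x' k * v' s k = ∑ i : Fin 3, x (m.succAbove i) * v s (m.succAbove i) -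
          (v s m / (g m : ℂ)) * ∑ i : Fin 3, (g (m.succAbove i) : ℂ) * x (m.succAbove i) := by
        rw [Finset.mul_sum, ← Finset.sum_sub_distrib]
        apply Finset.sum_congr rfl
        intro i _
        simp only [hx', hv']
        ring
      rw [e2]
      have e3 : ∑ i : Fin 3, (g (m.succAbove i) : ℂ) * x (m.succAbove i) = - ((g m : ℂ) * x m) := by
        linear_combination hgC
      rw [e3]
      have e4 : (v s m / (g m : ℂ)) * -((g m : ℂ) * x m) = -(x m * v s m) := by
        field_simp
      rw [e4]
      linear_combination e1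
    refine ⟨fun k => (g k : ℂ), LinearMap.ker (Fintype.linearCombination QB v'), hgA, ?_,
      fun c hc => ?_⟩
    · have := ker_ge x' hx'i v' hv'L hxv'
      omega
    · rw [LinearMap.mem_ker, Fintype.linearCombination_apply] at hc
      refine ⟨(∑ s, (c s : ℂ) * v s m) / (g m : ℂ), fun k => ?_⟩
      by_cases hk : k = m
      · subst hk
        rw [div_mul_cancel₀ _ hmC]
      · obtain ⟨i, hi⟩ := Fin.exists_succAbove_eq hk
        have h1 := congrFun hc i
        rw [Finset.sum_apply, Pi.zero_apply] at h1
        have h2 : ∑ s, (c s : ℂ) * v s (m.succAbove i) -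
            ((g (m.succAbove i) : ℂ) / (g m : ℂ)) * ∑ s, (c s : ℂ) * v s m = 0 := by
          rw [← h1, Finset.mul_sum, ← Finset.sum_sub_distrib]
          apply Finset.sum_congr rfl
          intro s _
          rw [Pi.smul_apply, Algebra.smul_def]
          simp only [hv']
          change _ = (c s : ℂ) * _
          ring
        rw [← hi]
        linear_combination h2

end Pool.Agent.TH160.Tow
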